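import Mathlib
import Pool.Agent.TH587.Horn4

/-!
# Jordan curves with cusps, and all Jordan curves near them

`γ` is a Jordan curve (continuous, `1`-periodic, injective on `[0, 1)`) each of whose points is of one
of the types below.  Then `γ`, and moreover every Jordan curve `γ'` which is uniformly close enough to
`γ` (with no regularity at all), contains the vertices of a square.

In particular this holds for all piecewise `C¹` regular Jordan curves, cusps of both kinds (angle `0`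
and `2π`) being allowed, and for all curves of finite total curvature, again with cusps.  The curves are
not assumed to be rectifiable away from the horns.
-/

namespace Pool.Agent.Results.MP_42173d_gt.CuspsAndHorns

open Set Filter Topology

/-- Stromquist's condition at `τ`: some linear functional is strictly monotone along the curve near
`τ`. -/
def LocallyMonotone (γ : ℝ → ℂ) (τ : ℝ) : Prop := 
  ∃ e : ℂ, ∃ ε > 0, StrictMonoOn (fun t => ((starRingEnd ℂ) e * γ t).re) (Ioo (τ - ε) (τ + ε))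

/-- The three point condition near `τ` with a constant smaller than `1 + √2`. -/
def AlmostStraight (γ : ℝ → ℂ) (τ : ℝ) : Prop := 
  ∃ K < 1 + Real.sqrt 2, ∃ ε > 0, ∀ s ∈ Ioo (τ - ε) (τ + ε), ∀ t ∈ Ioo (τ - ε) (τ + ε), 
    ∀ v ∈ Ioo (τ - ε) (τ + ε), s < t → t < v → ‖γ s - γ t‖ + ‖γ t - γ v‖ ≤ K * ‖γ s - γ v‖

/-- A clean radius around the point `γ τ`: a number `r > 0`, smaller than half of all the distances
`‖γ t - γ (t + δ)‖`, such that there are no four consecutive points of the curve within a parameter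
interval of length `δ`, having three equal sides, equal diagonals and a fourth side at most as long as the
other three, whose largest distance from `γ τ` is exactly `r`. -/
def CleanRadius (γ : ℝ → ℂ) (δ τ : ℝ) : Prop := 
  ∃ r > 0, (∀ t, 2 * r < ‖γ t - γ (t + δ)‖) ∧ 
    ∀ t₀ t₁ t₂ t₃, t₀ < t₁ → t₁ < t₂ → t₂ < t₃ → t₃ ≤ t₀ + δ → 
      ‖γ t₂ - γ t₁‖ = ‖γ t₁ - γ t₀‖ → ‖γ t₃ - γ t₂‖ = ‖γ t₁ - γ t₀‖ → 
      ‖γ t₀ - γ t₃‖ ≤ ‖γ t₁ - γ t₀‖ → ‖γ t₂ - γ t₀‖ = ‖γ t₃ - γ t₁‖ → 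
      max (max ‖γ t₀ - γ τ‖ ‖γ t₁ - γ τ‖) (max ‖γ t₂ - γ τ‖ ‖γ t₃ - γ τ‖) ≠ r

/-- A horn with tip `γ τ`: near `τ` both arms are, over one and the same half line starting at `γ τ`,
graphs of functions with Lipschitz constant `2/5`. -/
def Horn (γ : ℝ → ℂ) (τ : ℝ) : Prop := 
  ∃ e : ℂ, ∃ ε > 0, 
    StrictAntiOn (fun t => ((starRingEnd ℂ) e * γ t).re) (Icc (τ - ε) τ) ∧ 
    StrictMonoOn (fun t => ((starRingEnd ℂ) e * γ t).re) (Icc τ (τ + ε)) ∧ 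
    (∀ s ∈ Icc (τ - ε) τ, ∀ t ∈ Icc (τ - ε) τ, 
      |((starRingEnd ℂ) e * (γ s - γ t)).im| ≤ 2/5 * |((starRingEnd ℂ) e * (γ s - γ t)).re|) ∧ 
    (∀ s ∈ Icc τ (τ + ε), ∀ t ∈ Icc τ (τ + ε), 
      |((starRingEnd ℂ) e * (γ s - γ t)).im| ≤ 2/5 * |((starRingEnd ℂ) e * (γ s - γ t)).re|)

/-- `γ` has nonzero strict one-sided derivatives `v₁` (on the left) and `v₂` (on the right) at `τ`; any
angle between them is allowed, in particular `v₂` may be a negative multiple of `v₁` (a cusp). -/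
def OneSidedTangents (γ : ℝ → ℂ) (τ : ℝ) : Prop := 
  ∃ v₁ v₂ : ℂ, v₁ ≠ 0 ∧ v₂ ≠ 0 ∧ ∀ c > 0, ∃ ε > 0, 
    (∀ s t : ℝ, τ - ε < s → s < t → t ≤ τ → ‖γ t - γ s - ((t - s : ℝ) : ℂ) * v₁‖ ≤ c * (t - s)) ∧ 
    (∀ s t : ℝ, τ ≤ s → s < t → t < τ + ε → ‖γ t - γ s - ((t - s : ℝ) : ℂ) * v₂‖ ≤ c * (t - s))

/-- Injectivity on a period, in the form used in the proof. -/
lemma jor_of {γ : ℝ → ℂ} (hγ : Continuous γ) (hper : ∀ t, γ (t + 1) = γ t) 
    (hinj : InjOn γ (Ico 0 1)) : H145R2.TSq.Jor γ := by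
  have hfr : ∀ s, γ s = γ (Int.fract s) := by
    intro s
    have hperz : Function.Periodic γ 1 := hper
    have := hperz.sub_zsmul_eq (x := s) ⌊s⌋
    rw [← this]
    congr 1
    show s - ⌊s⌋ • (1:ℝ) = s - ⌊s⌋
    rw [zsmul_eq_mul, mul_one]
  refine ⟨hγ, hper, ?_⟩
  intro s t hst
  rw [hfr s, hfr t] at hst
  have h := hinj ⟨Int.fract_nonneg s, Int.fract_lt_one s⟩ ⟨Int.fract_nonneg t, Int.fract_lt_one t⟩ hst
  refine ⟨⌊s⌋ - ⌊t⌋, ?_⟩
  have h1 := Int.self_sub_floor s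
  have h2 := Int.self_sub_floor t
  push_cast
  linarith

theorem result (γ : ℝ → ℂ) (hγ : Continuous γ) (hper : ∀ t, γ (t + 1) = γ t) 
    (hinj : InjOn γ (Ico 0 1)) (δ : ℝ) (hδ : 0 < δ) (hδ2 : δ < 1/2) 
    (hloc : ∀ τ : ℝ, LocallyMonotone γ τ ∨ AlmostStraight γ τ ∨ Horn γ τ ∨ OneSidedTangents γ τ ∨ 
      CleanRadius γ δ τ) : 
    ∃ ε > 0, ∀ γ' : ℝ → ℂ, Continuous γ' → (∀ t, γ' (t + 1) = γ' t) → InjOn γ' (Ico 0 1) → 
      (∀ t, ‖γ' t - γ t‖ ≤ ε) → 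
      ∃ z w : ℂ, w ≠ 0 ∧ z ∈ range γ' ∧ z + w ∈ range γ' ∧ z + w + Complex.I * w ∈ range γ' ∧ 
        z + Complex.I * w ∈ range γ' := by
  have hJ := jor_of hγ hper hinj
  obtain ⟨ε, hε, h⟩ := TH587.sep_robust hJ hδ hδ2 (by
    intro τ
    rcases hloc τ with ⟨e, ε, hε, h⟩ | ⟨K, hK, ε, hε, h⟩ | ⟨e, ε, hε, h1, h2, h3, h4⟩ | 
      ⟨v₁, v₂, h1, h2, h⟩ | ⟨r, hr, h1, h2⟩
    · exact TH587.sep_noTrap hJ hδ (TH587.noTrap_mono hJ (by linarith) (e := e) ⟨hε, h⟩)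
    · exact TH587.sep_noTrap hJ hδ (TH587.noTrap_three hJ (by linarith) hε hK h)
    · exact TH587.sep_horn hJ hδ hδ2 ⟨hε, h1, h2, h3, h4⟩
    · rcases TH587.tan_cases hJ (δ := δ) (by linarith) (v₁ := v₁) (v₂ := v₂) ⟨h1, h2, 
        fun c hc => by
          obtain ⟨ε, hε, k, -⟩ := h c hc
          exact ⟨ε, hε, k⟩, 
        fun c hc => by
          obtain ⟨ε, hε, -, k⟩ := h c hc
          exact ⟨ε, hε, k⟩⟩ with ⟨ε, h⟩ | ⟨e, ε, h⟩
      · exact TH587.sep_noTrap hJ hδ h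
      · exact TH587.sep_horn hJ hδ hδ2 h
    · exact TH587.sep_radius' hJ hr h1 h2)
  exact ⟨ε, hε, fun γ' h1 h2 h3 h4 => h γ' (jor_of h1 h2 h3) h4⟩

end Pool.Agent.Results.MP_42173d_gt.CuspsAndHorns
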